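import Mathlib
import Pool.Agent.H.MP_4d1f21_nt.Q
import Pool.Agent.H.MP_4d1f21_nt.A

open Finset Polynomial

namespace Pool.Agent.Results.MP_4d1f21_nt.Yes

noncomputable def q : RatFunc ℚ := RatFunc.X

noncomputable def poch (a b : RatFunc ℚ) (k : ℕ) : RatFunc ℚ := ∏ j ∈ range k, (1 - a * b ^ j)

noncomputable def S (d m n : ℕ) : RatFunc ℚ :=
  ∑ k ∈ range n, (∏ i ∈ Icc 1 d, poch (q ^ i) (q ^ m) k) / poch (q ^ m) (q ^ m) k ^ d * q ^ (m * k)

open Pool.Agent.H.MP_4d1f21_nt in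
theorem result (d m n : ℕ) (hd : 3 ≤ d) (hm : 2 * m = d * (d + 1)) (hn : 1 < n)
    (hmn : m ∣ n + 1) :
    cyclotomic n ℚ ^ 2 ∣ (S d m n).num ∧ IsCoprime (S d m n).denom (cyclotomic n ℚ ^ 2) := by
  obtain ⟨t, ht⟩ := hmn
  have := nontriv (n := n) (e := 2) (by omega) (by omega)
  set x := AdjoinRoot.root (cyclotomic n ℚ ^ 2) with hx
  have hcop : Nat.Coprime n m := by
    have : Nat.Coprime n (n + 1) := by simp
    rw [ht] at this
    exact Nat.Coprime.coprime_mul_right_right this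
  have hu : ∀ j, 0 < j → j < n → IsUnit (1 - (x ^ m) ^ j) := by
    intro j h0 h1
    rw [← pow_mul]
    refine unit_root 2 (by omega) fun h => ?_
    exact absurd (Nat.le_of_dvd h0 (hcop.dvd_of_dvd_mul_left h)) (by omega)
  have hw0 : ∀ k, ∃ w, k < n → w * ∏ j ∈ range k, (1 - x ^ m * (x ^ m) ^ j) = 1 := by
    intro k
    by_cases hk : k < n
    · have : IsUnit (∏ j ∈ range k, (1 - x ^ m * (x ^ m) ^ j)) := by
        refine IsUnit.prod_iff.2 fun j hj => ?_
        rw [← pow_succ']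
        exact hu _ (by omega) (by have := mem_range.1 hj; omega)
      obtain ⟨w, hw⟩ := this.exists_left_inv
      exact ⟨w, fun _ => hw⟩
    · exact ⟨0, fun h => absurd h hk⟩
  choose w hw using hw0
  have h := main x d m n t hd hm ht (eps_pow n 2) w hu hw
  have hmu : IsUnit (m : AdjoinRoot (cyclotomic n ℚ ^ 2)) := by
    have : (m : ℚ) ≠ 0 := by
      have : 0 < m := by nlinarith
      exact_mod_cast this.ne'
    simpa using (IsUnit.mk0 _ this).map (algebraMap ℚ (AdjoinRoot (cyclotomic n ℚ ^ 2)))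
  rw [hmu.mul_right_eq_zero] at h
  apply Rel.fin
  rw [← h]
  refine Rel.sum _ fun k hk => ?_
  rw [div_eq_mul_inv, ← inv_pow, pow_mul]
  refine Rel.mul (Rel.mul (Rel.prod _ fun i _ => Rel.prod _ fun j _ => ?_) (Rel.pow ?_ _))
    ((Rel.X.pow _).pow _)
  · exact Rel.one.sub ((Rel.X.pow _).mul ((Rel.X.pow _).pow _))
  · refine Rel.inv (Rel.prod _ fun j _ => Rel.one.sub ((Rel.X.pow _).mul ((Rel.X.pow _).pow _))) ?_
    rw [mul_comm]
    exact hw k (mem_range.1 hk)

end Pool.Agent.Results.MP_4d1f21_nt.Yes
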